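import Pool.Agent.R260.BpB

set_option autoImplicit false

open Pool.Agent.R260.Bp

namespace Pool.Agent.Results.MP_4d1c53_an.CompositionIndestructible

/-- The composition of two indestructible Blaschke products is an indestructible Blaschke product. -/
theorem result (B C : ℂ → ℂ) (hB : Indestructible B) (hC : Indestructible C) :
    Indestructible (fun z => B (C z)) :=
  ⟨comp_blaschke B C hB.1 hC, fun φ a ha =>
    comp_blaschke (fun w => autT φ a (B w)) C (hB.2 φ a ha) hC⟩

end Pool.Agent.Results.MP_4d1c53_an.CompositionIndestructible
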